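import Pool.Agent.K1H46.CP.Stm

/-! CP-SQF: forms whose discriminant is divisible by the square of a squarefree number. -/

set_option autoImplicit false

namespace Pool.Agent.K1H61.CP

open Pool.Agent.K1H46.CP Finset

/-- integers of absolute value at most `N` in one class modulo `q` -/
lemma card_cls (N q : ℕ) (hq : 0 < q) (c : ZMod q) :
    ((Icc (-(N : ℤ)) N).filter (fun x : ℤ => (x : ZMod q) = c)).card ≤ 2 * N / q + 1 := by
  set S := (Icc (-(N : ℤ)) N).filter (fun x : ℤ => (x : ZMod q) = c) with hS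
  rcases S.eq_empty_or_nonempty with h | h
  · rw [h]; simp
  · set m := S.min' h with hm
    have hmem : m ∈ S := S.min'_mem h
    have hqz : (0 : ℤ) < q := by exact_mod_cast hq
    have hin : ∀ b ∈ S, -(N : ℤ) ≤ b ∧ b ≤ N ∧ (b : ZMod q) = c := by
      intro b hb
      rw [hS, mem_filter, mem_Icc] at hb
      exact ⟨hb.1.1, hb.1.2, hb.2⟩
    have hkey : ∀ b ∈ S, ∃ k : ℕ, b - m = q * (k : ℤ) := by
      intro b hb
      have h1 : ((b - m : ℤ) : ZMod q) = 0 := by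
        push_cast
        rw [(hin b hb).2.2, (hin m hmem).2.2, sub_self]
      obtain ⟨k, hk⟩ := (ZMod.intCast_zmod_eq_zero_iff_dvd (b - m) q).mp h1
      have h0 : 0 ≤ b - m := sub_nonneg.mpr (S.min'_le b hb)
      have hk0 : 0 ≤ k := by
        rw [hk] at h0
        exact nonneg_of_mul_nonneg_right h0 hqz
      refine ⟨k.toNat, ?_⟩
      rw [Int.toNat_of_nonneg hk0, hk]
    have : S.card ≤ (range (2 * N / q + 1)).card := by
      apply Finset.card_le_card_of_injOn (fun b => ((b - m) / q).toNat)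
      · intro b hb
        have hb' : b ∈ S := hb
        obtain ⟨k, hk⟩ := hkey b hb'
        have h1 : ((b - m) / q).toNat = k := by
          rw [hk, Int.mul_ediv_cancel_left _ hqz.ne']
          simp
        have h2 := (hin b hb').2.1
        have h3 := (hin m hmem).1
        have h4 : (q : ℤ) * k ≤ 2 * N := by rw [← hk]; linarith
        have h5 : k * q ≤ 2 * N := by
          have : q * k ≤ 2 * N := by exact_mod_cast h4
          rwa [mul_comm] at this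
        have h6 : k ≤ 2 * N / q := (Nat.le_div_iff_mul_le hq).mpr h5
        simp only [coe_range, Set.mem_Iio]
        rw [h1]; omega
      · intro b hb b' hb' he
        obtain ⟨k, hk⟩ := hkey b hb
        obtain ⟨k', hk'⟩ := hkey b' hb'
        have h1 : ((b - m) / q).toNat = k := by
          rw [hk, Int.mul_ediv_cancel_left _ hqz.ne']
          simp
        have h1' : ((b' - m) / q).toNat = k' := by
          rw [hk', Int.mul_ediv_cancel_left _ hqz.ne']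
          simp
        have he' : ((b - m) / q).toNat = ((b' - m) / q).toNat := he
        rw [h1, h1'] at he'
        rw [he'] at hk
        linarith
    simpa using this

/-- the box vectors whose discriminant is divisible by `m ^ 2` -/
lemma card_one (h : S_CLS) (N m : ℕ) (hm : Squarefree m) (hc : m.Coprime 6) (hmN : m ^ 2 ≤ N)
    (E : Finset Q4) (hE : ∀ v ∈ E, Box N v ∧ (m : ℤ) ^ 2 ∣ dQ v) :
    (E.card : ℝ) ≤ 81 * 5 ^ m.primeFactors.card * (N : ℝ) ^ 4 / (m : ℝ) ^ 2 := by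
  have hm0 : 0 < m := Nat.pos_of_ne_zero hm.ne_zero
  have hq : 0 < m ^ 2 := by positivity
  have : NeZero (m ^ 2) := ⟨hq.ne'⟩
  have hmr : (0 : ℝ) < m := by exact_mod_cast hm0
  set Z : Set (ZMod (m ^ 2) × ZMod (m ^ 2) × ZMod (m ^ 2) × ZMod (m ^ 2)) :=
    {v | dsc v.1 v.2.1 v.2.2.1 v.2.2.2 = 0} with hZ
  have hfin : Z.Finite := Set.toFinite Z
  have hZc : hfin.toFinset.card ≤ 5 ^ m.primeFactors.card * m ^ 6 := by
    have := h m hm hc
    rwa [Set.ncard_eq_toFinset_card _ hfin] at this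
  set φ : Q4 → ZMod (m ^ 2) × ZMod (m ^ 2) × ZMod (m ^ 2) × ZMod (m ^ 2) :=
    fun v => ((v.1 : ZMod (m ^ 2)), (v.2.1 : ZMod (m ^ 2)), (v.2.2.1 : ZMod (m ^ 2)),
      (v.2.2.2 : ZMod (m ^ 2))) with hφ
  have hmaps : ∀ v ∈ E, φ v ∈ hfin.toFinset := by
    intro v hv
    rw [Set.Finite.mem_toFinset]
    have h1 := (hE v hv).2
    have h2 : ((dQ v : ℤ) : ZMod (m ^ 2)) = 0 := by
      rw [ZMod.intCast_zmod_eq_zero_iff_dvd]
      push_cast
      exact h1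
    have h3 : dsc (φ v).1 (φ v).2.1 (φ v).2.2.1 (φ v).2.2.2 = ((dQ v : ℤ) : ZMod (m ^ 2)) := by
      simp only [hφ, dQ, dsc]
      push_cast
      ring
    rw [hZ]
    show dsc _ _ _ _ = 0
    rw [h3, h2]
  have hfib : ∀ w ∈ hfin.toFinset, (E.filter (fun v => φ v = w)).card ≤ (2 * N / m ^ 2 + 1) ^ 4 := by
    intro w _
    have hsub : E.filter (fun v => φ v = w) ⊆
        ((Icc (-(N : ℤ)) N).filter (fun x : ℤ => (x : ZMod (m ^ 2)) = w.1)) ×ˢ
        (((Icc (-(N : ℤ)) N).filter (fun x : ℤ => (x : ZMod (m ^ 2)) = w.2.1)) ×ˢ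
        (((Icc (-(N : ℤ)) N).filter (fun x : ℤ => (x : ZMod (m ^ 2)) = w.2.2.1)) ×ˢ
        ((Icc (-(N : ℤ)) N).filter (fun x : ℤ => (x : ZMod (m ^ 2)) = w.2.2.2)))) := by
      intro v hv
      rw [mem_filter] at hv
      obtain ⟨hv1, hv2⟩ := hv
      obtain ⟨⟨b1, b2, b3, b4⟩, _⟩ := hE v hv1
      rw [abs_le] at b1 b2 b3 b4
      simp only [mem_product, mem_filter, mem_Icc]
      refine ⟨⟨b1, ?_⟩, ⟨b2, ?_⟩, ⟨b3, ?_⟩, ⟨b4, ?_⟩⟩
      · rw [← hv2]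
      · rw [← hv2]
      · rw [← hv2]
      · rw [← hv2]
    refine (card_le_card hsub).trans ?_
    rw [card_product, card_product, card_product]
    have e := fun c : ZMod (m ^ 2) => card_cls N (m ^ 2) hq c
    calc _ ≤ (2 * N / m ^ 2 + 1) * ((2 * N / m ^ 2 + 1) * ((2 * N / m ^ 2 + 1) *
          (2 * N / m ^ 2 + 1))) :=
          Nat.mul_le_mul (e _) (Nat.mul_le_mul (e _) (Nat.mul_le_mul (e _) (e _)))
      _ = (2 * N / m ^ 2 + 1) ^ 4 := by ring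
  have hcard : E.card ≤ (2 * N / m ^ 2 + 1) ^ 4 * hfin.toFinset.card :=
    Finset.card_le_mul_card_image_of_maps_to hmaps _ hfib
  have hcard2 : E.card ≤ (2 * N / m ^ 2 + 1) ^ 4 * (5 ^ m.primeFactors.card * m ^ 6) :=
    hcard.trans (Nat.mul_le_mul_left _ hZc)
  have hcard3 : (E.card : ℝ) ≤ (((2 * N / m ^ 2 : ℕ) : ℝ) + 1) ^ 4 *
      (5 ^ m.primeFactors.card * (m : ℝ) ^ 6) := by exact_mod_cast hcard2
  have hd : ((2 * N / m ^ 2 : ℕ) : ℝ) + 1 ≤ 3 * N / (m : ℝ) ^ 2 := by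
    have h1 : ((2 * N / m ^ 2 : ℕ) : ℝ) ≤ ((2 * N : ℕ) : ℝ) / ((m ^ 2 : ℕ) : ℝ) := Nat.cast_div_le
    push_cast at h1
    have h2 : (1 : ℝ) ≤ N / (m : ℝ) ^ 2 := by
      rw [le_div_iff₀ (by positivity)]
      have : ((m ^ 2 : ℕ) : ℝ) ≤ N := by exact_mod_cast hmN
      push_cast at this
      linarith
    have h3 : 3 * (N : ℝ) / (m : ℝ) ^ 2 = 2 * N / (m : ℝ) ^ 2 + N / (m : ℝ) ^ 2 := by ring
    rw [h3]; linarith
  calc (E.card : ℝ) ≤ (((2 * N / m ^ 2 : ℕ) : ℝ) + 1) ^ 4 *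
      (5 ^ m.primeFactors.card * (m : ℝ) ^ 6) := hcard3
    _ ≤ (3 * N / (m : ℝ) ^ 2) ^ 4 * (5 ^ m.primeFactors.card * (m : ℝ) ^ 6) := by
        gcongr
    _ = 81 * 5 ^ m.primeFactors.card * (N : ℝ) ^ 4 / (m : ℝ) ^ 2 := by
        field_simp
        ring

/-- the powers of five -/
lemma five_pow (m : ℕ) (hm : Squarefree m) :
    (5 : ℝ) ^ m.primeFactors.card ≤ 5 ^ 25 * √(m : ℝ) := by
  have h1 : (5 : ℝ) ^ m.primeFactors.card = ∏ _p ∈ m.primeFactors, (5 : ℝ) := by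
    rw [prod_const]
  have h2 : ∏ _p ∈ m.primeFactors, (5 : ℝ) ≤
      ∏ p ∈ m.primeFactors, ((if p < 25 then (5 : ℝ) else 1) * √(p : ℝ)) := by
    apply prod_le_prod
    · intro i _; norm_num
    · intro p hp
      have hp1 : 1 ≤ p := (Nat.prime_of_mem_primeFactors hp).one_lt.le
      split_ifs with h
      · have : (1 : ℝ) ≤ √(p : ℝ) := by
          rw [Real.one_le_sqrt]; exact_mod_cast hp1
        linarith
      · rw [one_mul]
        apply Real.le_sqrt_of_sq_le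
        have : (25 : ℝ) ≤ p := by exact_mod_cast (not_lt.mp h)
        linarith
  have h3 : ∏ p ∈ m.primeFactors, ((if p < 25 then (5 : ℝ) else 1) * √(p : ℝ)) =
      (∏ p ∈ m.primeFactors, (if p < 25 then (5 : ℝ) else 1)) *
        ∏ p ∈ m.primeFactors, √(p : ℝ) := prod_mul_distrib
  have h4 : ∏ p ∈ m.primeFactors, √(p : ℝ) = √(m : ℝ) := by
    have e : (m : ℝ) = ∏ p ∈ m.primeFactors, (p : ℝ) := by
      have := Nat.prod_primeFactors_of_squarefree hm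
      conv_lhs => rw [← this]
      push_cast
      rfl
    rw [e, ← Real.sqrt_prod]
    intro i _; positivity
  have h5 : ∏ p ∈ m.primeFactors, (if p < 25 then (5 : ℝ) else 1) ≤ 5 ^ 25 := by
    rw [← prod_filter, prod_const]
    apply pow_le_pow_right₀ (by norm_num)
    have : (m.primeFactors.filter (fun p => p < 25)) ⊆ range 25 := by
      intro p hp
      rw [mem_filter] at hp
      exact mem_range.mpr hp.2
    simpa using card_le_card this
  rw [h1]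
  refine h2.trans ?_
  rw [h3, h4]
  exact mul_le_mul_of_nonneg_right h5 (Real.sqrt_nonneg _)

/-- one term of the telescoping sum -/
lemma tele (m : ℕ) (hm : 1 ≤ m) :
    √(m : ℝ) / (m : ℝ) ^ 2 ≤ 4 * (1 / √(m : ℝ) - 1 / √((m : ℝ) + 1)) := by
  have hm1 : (1 : ℝ) ≤ m := by exact_mod_cast hm
  set s := √(m : ℝ) with hs
  set t := √((m : ℝ) + 1) with ht
  have hs2 : s ^ 2 = m := Real.sq_sqrt (by linarith)
  have ht2 : t ^ 2 = m + 1 := Real.sq_sqrt (by linarith)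
  have hs1 : 1 ≤ s := by rw [hs, Real.one_le_sqrt]; exact hm1
  have ht0 : 0 < t := by rw [ht]; exact Real.sqrt_pos.mpr (by linarith)
  have hst : t ≤ 3 / 2 * s := by
    have h1 : t ^ 2 ≤ (3 / 2 * s) ^ 2 := by rw [ht2, mul_pow, hs2]; linarith
    exact le_of_sq_le_sq h1 (by positivity)
  have hs0 : 0 < s := by linarith
  have e1 : √(m : ℝ) / (m : ℝ) ^ 2 = 1 / s ^ 3 := by
    rw [← hs, ← hs2]
    field_simp
  have e2 : 1 / s - 1 / t = 1 / (s * t * (s + t)) := by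
    have : t ^ 2 - s ^ 2 = 1 := by rw [ht2, hs2]; ring
    field_simp
    nlinarith
  rw [e1, e2, mul_one_div, div_le_div_iff₀ (by positivity) (by positivity), one_mul]
  have h1 : s * t * (s + t) ≤ s * (3 / 2 * s) * (s + 3 / 2 * s) := by gcongr
  nlinarith [pow_pos hs0 3]

lemma tsum (Q : ℕ) (hQ : 1 ≤ Q) (k : ℕ) :
    ∑ i ∈ range k, √((Q + i : ℕ) : ℝ) / ((Q + i : ℕ) : ℝ) ^ 2 ≤
      4 * (1 / √(Q : ℝ) - 1 / √((Q + k : ℕ) : ℝ)) := by
  induction k with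
  | zero => simp
  | succ k ih =>
    rw [sum_range_succ]
    have := tele (Q + k) (by omega)
    have e : ((Q + (k + 1) : ℕ) : ℝ) = ((Q + k : ℕ) : ℝ) + 1 := by push_cast; ring
    rw [e]
    linarith

theorem t_SQF (h : S_CLS) : S_SQF := by
  refine ⟨81 * 5 ^ 25 * 4, by positivity, ?_⟩
  intro N Q R E hN hQ hR hE
  classical
  set I := (range (R + 1)).filter (fun i => Squarefree (Q + i) ∧ (Q + i).Coprime 6 ∧ Q + i ≤ R)
    with hI
  have hsub : E ⊆ I.biUnion (fun i => E.filter (fun v => ((Q + i : ℕ) : ℤ) ^ 2 ∣ dQ v)) := by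
    intro v hv
    obtain ⟨_, m, h1, h2, h3, h4, h5⟩ := hE v hv
    obtain ⟨i, rfl⟩ := Nat.exists_eq_add_of_le h3
    rw [mem_biUnion]
    refine ⟨i, ?_, ?_⟩
    · rw [hI, mem_filter, mem_range]
      exact ⟨by omega, h1, h2, h4⟩
    · rw [mem_filter]
      exact ⟨hv, h5⟩
  have hc : (E.card : ℝ) ≤ ∑ i ∈ I, ((E.filter (fun v => ((Q + i : ℕ) : ℤ) ^ 2 ∣ dQ v)).card : ℝ) := by
    have h1 : E.card ≤ ∑ i ∈ I, (E.filter (fun v => ((Q + i : ℕ) : ℤ) ^ 2 ∣ dQ v)).card :=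
      (card_le_card hsub).trans card_biUnion_le
    exact_mod_cast h1
  have hN4 : (0 : ℝ) ≤ (N : ℝ) ^ 4 := by positivity
  have hterm : ∀ i ∈ I, ((E.filter (fun v => ((Q + i : ℕ) : ℤ) ^ 2 ∣ dQ v)).card : ℝ) ≤
      81 * 5 ^ 25 * (N : ℝ) ^ 4 * (√((Q + i : ℕ) : ℝ) / ((Q + i : ℕ) : ℝ) ^ 2) := by
    intro i hi
    rw [hI, mem_filter] at hi
    obtain ⟨_, h1, h2, h3⟩ := hi
    have hle : (Q + i) ^ 2 ≤ N := (Nat.pow_le_pow_left h3 2).trans hR
    have h4 := card_one h N (Q + i) h1 h2 hle (E.filter (fun v => ((Q + i : ℕ) : ℤ) ^ 2 ∣ dQ v))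
      (fun v hv => ⟨(hE v (mem_filter.mp hv).1).1, (mem_filter.mp hv).2⟩)
    refine h4.trans ?_
    have h5 := five_pow (Q + i) h1
    have h6 : (0 : ℝ) < ((Q + i : ℕ) : ℝ) := by
      have : 0 < Q + i := by omega
      exact_mod_cast this
    calc 81 * 5 ^ (Q + i).primeFactors.card * (N : ℝ) ^ 4 / ((Q + i : ℕ) : ℝ) ^ 2
        ≤ 81 * (5 ^ 25 * √((Q + i : ℕ) : ℝ)) * (N : ℝ) ^ 4 / ((Q + i : ℕ) : ℝ) ^ 2 := by gcongr
      _ = 81 * 5 ^ 25 * (N : ℝ) ^ 4 * (√((Q + i : ℕ) : ℝ) / ((Q + i : ℕ) : ℝ) ^ 2) := by ring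
  have hsum : ∑ i ∈ I, √((Q + i : ℕ) : ℝ) / ((Q + i : ℕ) : ℝ) ^ 2 ≤ 4 * (1 / √(Q : ℝ)) := by
    have h1 : ∑ i ∈ I, √((Q + i : ℕ) : ℝ) / ((Q + i : ℕ) : ℝ) ^ 2 ≤
        ∑ i ∈ range (R + 1), √((Q + i : ℕ) : ℝ) / ((Q + i : ℕ) : ℝ) ^ 2 := by
      apply sum_le_sum_of_subset_of_nonneg (filter_subset _ _)
      intro i _ _
      positivity
    refine h1.trans ((tsum Q hQ (R + 1)).trans ?_)
    have : (0 : ℝ) ≤ 1 / √((Q + (R + 1) : ℕ) : ℝ) := by positivity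
    linarith
  calc (E.card : ℝ) ≤ _ := hc
    _ ≤ ∑ i ∈ I, 81 * 5 ^ 25 * (N : ℝ) ^ 4 * (√((Q + i : ℕ) : ℝ) / ((Q + i : ℕ) : ℝ) ^ 2) :=
        sum_le_sum hterm
    _ = 81 * 5 ^ 25 * (N : ℝ) ^ 4 * ∑ i ∈ I, (√((Q + i : ℕ) : ℝ) / ((Q + i : ℕ) : ℝ) ^ 2) := by
        rw [mul_sum]
    _ ≤ 81 * 5 ^ 25 * (N : ℝ) ^ 4 * (4 * (1 / √(Q : ℝ))) :=
        mul_le_mul_of_nonneg_left hsum (by positivity)
    _ = 81 * 5 ^ 25 * 4 * (N : ℝ) ^ 4 / √(Q : ℝ) := by ring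

end Pool.Agent.K1H61.CP
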